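import Pool.Agent.H6.FIB.TargetsG

/-!
# Row DK2 of the board fib_modules: subgroups of order prime to `q`
-/

set_option autoImplicit false

namespace Pool.Agent.H74.FIB

open FI Matrix Polynomial
open scoped LinearAlgebra.Projectivization

section matrices

variable {K : Type} [Field K]

theorem pow_nil (a : K) (N : Matrix (Fin 2) (Fin 2) K) (h : N * N = 0) (n : ℕ) :
    (a • (1 : Matrix (Fin 2) (Fin 2) K) + N) ^ (n + 1) =
      a ^ (n + 1) • (1 : Matrix (Fin 2) (Fin 2) K) + (((n : K) + 1) * a ^ n) • N := by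
  induction n with
  | zero => simp
  | succ n ih =>
    rw [pow_succ, ih]
    simp only [add_mul, mul_add, smul_mul_assoc, mul_smul_comm, one_mul, mul_one, h, smul_zero,
      add_zero]
    push_cast
    module

theorem par {M : Matrix (Fin 2) (Fin 2) K} (hM : M ≠ 0) {u v : Fin 2 → K} (hv : v ≠ 0)
    (hu : M *ᵥ u = 0) (hv' : M *ᵥ v = 0) : ∃ a : K, u = a • v := by
  have h1 : ∀ i, M i 0 * u 0 + M i 1 * u 1 = 0 := by
    intro i
    have h := congrFun hu i
    simpa [Matrix.mulVec, dotProduct, Fin.sum_univ_two] using h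
  have h2 : ∀ i, M i 0 * v 0 + M i 1 * v 1 = 0 := by
    intro i
    have h := congrFun hv' i
    simpa [Matrix.mulVec, dotProduct, Fin.sum_univ_two] using h
  have hdet : u 0 * v 1 - u 1 * v 0 = 0 := by
    by_contra hne
    apply hM
    ext i j
    have h3 : M i 0 * (u 0 * v 1 - u 1 * v 0) = 0 := by
      linear_combination v 1 * h1 i - u 1 * h2 i
    have h4 : M i 1 * (u 0 * v 1 - u 1 * v 0) = 0 := by
      linear_combination u 0 * h2 i - v 0 * h1 i
    have h5 : M i 0 = 0 := (mul_eq_zero.1 h3).resolve_right hne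
    have h6 : M i 1 = 0 := (mul_eq_zero.1 h4).resolve_right hne
    fin_cases j
    · exact h5
    · exact h6
  by_cases h0 : v 0 = 0
  · have h1' : v 1 ≠ 0 := by
      intro h
      apply hv
      ext i
      fin_cases i
      · exact h0
      · exact h
    refine ⟨u 1 / v 1, ?_⟩
    ext i
    fin_cases i
    · change u 0 = u 1 / v 1 * v 0
      have h3 : u 0 * v 1 = 0 := by
        rw [h0] at hdet
        linear_combination hdet
      rw [h0, mul_zero]
      exact (mul_eq_zero.1 h3).resolve_right h1'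
    · change u 1 = u 1 / v 1 * v 1
      field_simp
  · refine ⟨u 0 / v 0, ?_⟩
    ext i
    fin_cases i
    · change u 0 = u 0 / v 0 * v 0
      field_simp
    · change u 1 = u 0 / v 0 * v 1
      field_simp
      linear_combination (-1 : K) * hdet

theorem det_sub (G : Matrix (Fin 2) (Fin 2) K) (x : K) :
    (G - x • (1 : Matrix (Fin 2) (Fin 2) K)).det =
      x ^ 2 - (G 0 0 + G 1 1) * x + (G 0 0 * G 1 1 - G 0 1 * G 1 0) := by
  rw [Matrix.det_fin_two]
  simp
  ring

theorem cayley (G : Matrix (Fin 2) (Fin 2) K) (x y : K) (h1 : x + y = G 0 0 + G 1 1)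
    (h2 : x * y = G 0 0 * G 1 1 - G 0 1 * G 1 0) :
    (G - x • (1 : Matrix (Fin 2) (Fin 2) K)) * (G - y • (1 : Matrix (Fin 2) (Fin 2) K)) = 0 := by
  ext i j
  rw [Matrix.mul_apply, Fin.sum_univ_two]
  fin_cases i <;> fin_cases j
  · simp
    linear_combination h2 - G 0 0 * h1
  · simp
    linear_combination -G 0 1 * h1
  · simp
    linear_combination -G 1 0 * h1
  · simp
    linear_combination h2 - G 1 1 * h1

theorem eigen [IsAlgClosed K] (G : Matrix (Fin 2) (Fin 2) K)
    (hG : ∀ c : K, G ≠ c • (1 : Matrix (Fin 2) (Fin 2) K)) (hdet : G.det ≠ 0) (n : ℕ) (c : K)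
    (hn : ((n + 1 : ℕ) : K) ≠ 0) (hGn : G ^ (n + 1) = c • (1 : Matrix (Fin 2) (Fin 2) K)) :
    ∃ v w : Fin 2 → K, v ≠ 0 ∧ w ≠ 0 ∧ (∃ x : K, G *ᵥ v = x • v) ∧ (∃ x : K, G *ᵥ w = x • w) ∧
      (∀ a : K, a • v ≠ w) ∧ ∀ u ≠ 0, (∃ x : K, G *ᵥ u = x • u) →
        (∃ a : K, a • v = u) ∨ ∃ a : K, a • w = u := by
  obtain ⟨x, hx⟩ := IsAlgClosed.exists_root
    (X ^ 2 - C (G 0 0 + G 1 1) * X + C (G 0 0 * G 1 1 - G 0 1 * G 1 0) : K[X]) (by
      have h : (X ^ 2 - C (G 0 0 + G 1 1) * X + C (G 0 0 * G 1 1 - G 0 1 * G 1 0) : K[X]).degree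
          = 2 := by compute_degree!
      rw [h]
      exact two_ne_zero)
  have hx' : x ^ 2 - (G 0 0 + G 1 1) * x + (G 0 0 * G 1 1 - G 0 1 * G 1 0) = 0 := by
    simpa [Polynomial.IsRoot] using hx
  obtain ⟨y, hy⟩ : ∃ y, y = G 0 0 + G 1 1 - x := ⟨_, rfl⟩
  have h1 : x + y = G 0 0 + G 1 1 := by rw [hy]; ring
  have h2 : x * y = G 0 0 * G 1 1 - G 0 1 * G 1 0 := by
    rw [hy]
    linear_combination -hx'
  have hyr : y ^ 2 - (G 0 0 + G 1 1) * y + (G 0 0 * G 1 1 - G 0 1 * G 1 0) = 0 := by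
    rw [← h1, ← h2]
    ring
  have hxy : x ≠ y := by
    intro hxy
    have hN := cayley G x y h1 h2
    rw [← hxy] at hN
    have hx0 : x ≠ 0 := by
      intro h
      apply hdet
      rw [Matrix.det_fin_two, ← h2, h, zero_mul]
    have h3 := pow_nil x (G - x • (1 : Matrix (Fin 2) (Fin 2) K)) hN n
    rw [add_sub_cancel, hGn] at h3
    have h4 : (((n : K) + 1) * x ^ n) ≠ 0 := by
      refine mul_ne_zero ?_ (pow_ne_zero _ hx0)
      exact_mod_cast hn
    have e01 := congrFun (congrFun h3 0) 1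
    have e10 := congrFun (congrFun h3 1) 0
    have e00 := congrFun (congrFun h3 0) 0
    have e11 := congrFun (congrFun h3 1) 1
    simp only [Matrix.smul_apply, Matrix.add_apply, Matrix.sub_apply, Matrix.one_apply_eq,
      Matrix.one_apply_ne (zero_ne_one : (0 : Fin 2) ≠ 1),
      Matrix.one_apply_ne (one_ne_zero : (1 : Fin 2) ≠ 0), smul_eq_mul, mul_zero, zero_add,
      sub_zero, mul_one] at e01 e10 e00 e11
    have f01 : G 0 1 = 0 := (mul_eq_zero.1 e01.symm).resolve_left h4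
    have f10 : G 1 0 = 0 := (mul_eq_zero.1 e10.symm).resolve_left h4
    have f00 : G 0 0 - G 1 1 = 0 := by
      have h5 : ((n : K) + 1) * x ^ n * (G 0 0 - G 1 1) = 0 := by
        linear_combination e11 - e00
      exact (mul_eq_zero.1 h5).resolve_left h4
    apply hG (G 0 0)
    ext i j
    fin_cases i <;> fin_cases j
    · simp
    · simp [f01]
    · simp [f10]
    · simp
      linear_combination -f00
  have hv : ∃ v : Fin 2 → K, v ≠ 0 ∧ (G - x • (1 : Matrix (Fin 2) (Fin 2) K)) *ᵥ v = 0 := by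
    apply Matrix.exists_mulVec_eq_zero_iff.2
    rw [det_sub]
    exact hx'
  have hw : ∃ w : Fin 2 → K, w ≠ 0 ∧ (G - y • (1 : Matrix (Fin 2) (Fin 2) K)) *ᵥ w = 0 := by
    apply Matrix.exists_mulVec_eq_zero_iff.2
    rw [det_sub]
    exact hyr
  obtain ⟨v, hv0, hv⟩ := hv
  obtain ⟨w, hw0, hw⟩ := hw
  have hvx : G *ᵥ v = x • v := by
    rw [Matrix.sub_mulVec, Matrix.smul_mulVec, Matrix.one_mulVec, sub_eq_zero] at hv
    exact hv
  have hwy : G *ᵥ w = y • w := by
    rw [Matrix.sub_mulVec, Matrix.smul_mulVec, Matrix.one_mulVec, sub_eq_zero] at hw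
    exact hw
  refine ⟨v, w, hv0, hw0, ⟨x, hvx⟩, ⟨y, hwy⟩, ?_, ?_⟩
  · intro a ha
    rw [← ha, Matrix.mulVec_smul, hvx, smul_smul, smul_smul] at hwy
    have h3 : (a * (x - y)) • v = 0 := by
      have h4 : (a * (x - y)) • v = (a * x) • v - (y * a) • v := by module
      rw [h4, hwy, sub_self]
    rcases smul_eq_zero.1 h3 with h4 | h4
    · rcases mul_eq_zero.1 h4 with h5 | h5
      · apply hw0
        rw [← ha, h5, zero_smul]
      · exact hxy (sub_eq_zero.1 h5)
    · exact hv0 h4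
  · rintro u hu ⟨z, hz⟩
    have h3 : (G - z • (1 : Matrix (Fin 2) (Fin 2) K)) *ᵥ u = 0 := by
      rw [Matrix.sub_mulVec, Matrix.smul_mulVec, Matrix.one_mulVec, sub_eq_zero]
      exact hz
    have h4 : (G - z • (1 : Matrix (Fin 2) (Fin 2) K)).det = 0 :=
      Matrix.exists_mulVec_eq_zero_iff.1 ⟨u, hu, h3⟩
    rw [det_sub] at h4
    have h5 : (z - x) * (z - y) = 0 := by
      linear_combination h4 - z * h1 + h2
    rcases mul_eq_zero.1 h5 with h6 | h6
    · left
      have h7 : z = x := sub_eq_zero.1 h6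
      rw [h7] at h3
      obtain ⟨a, ha⟩ := par (sub_ne_zero.2 (hG x)) hv0 h3 hv
      exact ⟨a, ha.symm⟩
    · right
      have h7 : z = y := sub_eq_zero.1 h6
      rw [h7] at h3
      obtain ⟨a, ha⟩ := par (sub_ne_zero.2 (hG y)) hw0 h3 hw
      exact ⟨a, ha.symm⟩

/-- a matrix of determinant one with the eigenvalue one is unipotent -/
theorem unip (M : Matrix (Fin 2) (Fin 2) K) (hdet : M.det = 1)
    (h1 : (M - 1).det = 0) (q : ℕ) (hq : ((q + 1 : ℕ) : K) = 0) : M ^ (q + 1) = 1 := by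
  have h2 := det_sub M 1
  rw [one_smul, h1] at h2
  rw [Matrix.det_fin_two] at hdet
  have hN := cayley M 1 1 (by linear_combination -h2 - hdet) (by linear_combination -hdet)
  rw [one_smul] at hN
  have h3 := pow_nil 1 (M - 1) hN q
  rw [one_smul, add_sub_cancel, one_pow, one_smul, one_pow, mul_one] at h3
  push_cast at hq
  rw [h3, hq, zero_smul, add_zero]

end matrices

section action

variable (q : ℕ) [Fact q.Prime]

/-- the algebraic closure -/
abbrev Ka : Type := AlgebraicClosure (ZMod q)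

/-- the projective line over the algebraic closure -/
abbrev Li : Type := ℙ (Ka q) (Fin 2 → Ka q)

/-- the matrix over the algebraic closure -/
noncomputable def Ma (g : GL (Fin 2) (ZMod q)) : Matrix (Fin 2) (Fin 2) (Ka q) :=
  g.1.map (algebraMap (ZMod q) (Ka q))

/-- the linear map of a matrix -/
noncomputable def Ph : GL (Fin 2) (ZMod q) →* LinearMap.GeneralLinearGroup (Ka q) (Fin 2 → Ka q) :=
  (Matrix.GeneralLinearGroup.toLin (n := Fin 2) (R := Ka q)).toMonoidHom.comp
    (Matrix.GeneralLinearGroup.map (algebraMap (ZMod q) (Ka q)))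

theorem Ph_smul (g : GL (Fin 2) (ZMod q)) (v : Fin 2 → Ka q) : Ph q g • v = Ma q g *ᵥ v := rfl

theorem fix_iff (g : GL (Fin 2) (ZMod q)) (v : Fin 2 → Ka q) (hv : v ≠ 0) :
    Ph q g • (Projectivization.mk (Ka q) v hv) = Projectivization.mk (Ka q) v hv ↔
      ∃ x : Ka q, Ma q g *ᵥ v = x • v := by
  rw [Projectivization.smul_mk, Projectivization.mk_eq_mk_iff']
  constructor
  · rintro ⟨a, ha⟩
    exact ⟨a, ha.symm⟩
  · rintro ⟨a, ha⟩
    exact ⟨a, ha.symm⟩

theorem Ma_mul (g h : GL (Fin 2) (ZMod q)) : Ma q (g * h) = Ma q g * Ma q h := by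
  unfold Ma
  rw [Matrix.GeneralLinearGroup.coe_mul, Matrix.map_mul]

theorem Ma_pow (g : GL (Fin 2) (ZMod q)) (n : ℕ) : Ma q (g ^ n) = Ma q g ^ n := by
  induction n with
  | zero =>
    rw [pow_zero, pow_zero]
    unfold Ma
    rw [Matrix.GeneralLinearGroup.coe_one, Matrix.map_one _ (map_zero _) (map_one _)]
  | succ n ih => rw [pow_succ, pow_succ, Ma_mul, ih]

theorem Ma_scalar (g : GL (Fin 2) (ZMod q)) (c : ZMod q) (h : Matrix.scalar (Fin 2) c = g.1) :
    Ma q g = algebraMap (ZMod q) (Ka q) c • (1 : Matrix (Fin 2) (Fin 2) (Ka q)) := by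
  unfold Ma
  rw [← h]
  ext i j
  rw [Matrix.map_apply, Matrix.smul_apply]
  by_cases hij : i = j
  · subst hij
    simp
  · simp [hij]

theorem act_eq (g h : GL (Fin 2) (ZMod q)) (hgh : (QuotientGroup.mk g : PG q) = QuotientGroup.mk h)
    (x : Li q) : Ph q g • x = Ph q h • x := by
  have h1 := QuotientGroup.eq.1 hgh
  obtain ⟨c, hc⟩ := Matrix.GeneralLinearGroup.mem_center_iff_val_mem_range_scalar.1 h1
  have h2 := Ma_scalar q _ c hc
  have h3 : Ma q h = algebraMap (ZMod q) (Ka q) c • Ma q g := by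
    have h4 : h = g * (g⁻¹ * h) := by group
    conv_lhs => rw [h4]
    rw [Ma_mul, h2, Matrix.mul_smul, Matrix.mul_one]
  induction x using Projectivization.ind with
  | h v hv =>
    rw [Projectivization.smul_mk, Projectivization.smul_mk, Projectivization.mk_eq_mk_iff']
    have hc0 : algebraMap (ZMod q) (Ka q) c ≠ 0 := by
      intro h0
      rw [h0, zero_smul] at h3
      have h5 : Ph q h • v = 0 := by
        rw [Ph_smul, h3, Matrix.zero_mulVec]
      exact hv ((smul_eq_zero_iff_eq _).1 h5)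
    refine ⟨(algebraMap (ZMod q) (Ka q) c)⁻¹, ?_⟩
    rw [Ph_smul, Ph_smul, h3, Matrix.smul_mulVec, smul_smul, inv_mul_cancel₀ hc0, one_smul]

theorem center_of (g : GL (Fin 2) (ZMod q)) (c : Ka q)
    (h : Ma q g = c • (1 : Matrix (Fin 2) (Fin 2) (Ka q))) :
    (QuotientGroup.mk g : PG q) = 1 := by
  rw [QuotientGroup.eq_one_iff, Matrix.GeneralLinearGroup.mem_center_iff_val_mem_range_scalar]
  have hinj := (algebraMap (ZMod q) (Ka q)).injective
  have e01 := congrFun (congrFun h 0) 1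
  have e10 := congrFun (congrFun h 1) 0
  have e00 := congrFun (congrFun h 0) 0
  have e11 := congrFun (congrFun h 1) 1
  simp only [Ma, Matrix.map_apply, Matrix.smul_apply, Matrix.one_apply_eq,
    Matrix.one_apply_ne (zero_ne_one : (0 : Fin 2) ≠ 1),
    Matrix.one_apply_ne (one_ne_zero : (1 : Fin 2) ≠ 0), smul_eq_mul, mul_zero,
    mul_one] at e01 e10 e00 e11
  have f01 : g.1 0 1 = 0 := hinj (by rw [e01, map_zero])
  have f10 : g.1 1 0 = 0 := hinj (by rw [e10, map_zero])
  have f00 : g.1 0 0 = g.1 1 1 := hinj (by rw [e00, e11])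
  refine ⟨g.1 0 0, ?_⟩
  ext i j
  fin_cases i <;> fin_cases j
  · simp
  · simp [f01]
  · simp [f10]
  · simp [f00]

end action

theorem pf_DK2 : T_DK2 := by
  classical
  intro q hq h7 T hT
  have : Fact q.Prime := ⟨hq⟩
  have hcard : Nat.card T ≠ 0 := fun h => hT (by rw [h]; exact dvd_zero q)
  have hfin : Finite T := Nat.finite_of_card_ne_zero hcard
  let out : PG q → GL (Fin 2) (ZMod q) := fun t => Quotient.out t
  have hout : ∀ t : PG q, (QuotientGroup.mk (out t) : PG q) = t := fun t => QuotientGroup.out_eq' t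
  -- the action on the lines
  let ac : T → Li q → Li q := fun t x => Ph q (out t.1) • x
  have ac_one : ∀ x, ac 1 x = x := by
    intro x
    change Ph q (out 1) • x = x
    rw [act_eq q (out 1) 1 (by rw [hout]; rfl), map_one, one_smul]
  have ac_mul : ∀ s t x, ac (s * t) x = ac s (ac t x) := by
    intro s t x
    change Ph q (out (s.1 * t.1)) • x = Ph q (out s.1) • Ph q (out t.1) • x
    rw [act_eq q (out (s.1 * t.1)) (out s.1 * out t.1) (by
      rw [hout, QuotientGroup.mk_mul, hout, hout]), map_mul, mul_smul]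
  have ac_inv : ∀ s x, ac s⁻¹ (ac s x) = x := by
    intro s x
    rw [← ac_mul, inv_mul_cancel, ac_one]
  -- the fixed points
  have hfix : ∀ t : T, t ≠ 1 → ∃ x1 x2 : Li q, x1 ≠ x2 ∧ ∀ x, ac t x = x ↔ x = x1 ∨ x = x2 := by
    intro t ht
    obtain ⟨n, hn⟩ := Nat.exists_eq_succ_of_ne_zero hcard
    have hg1 : (QuotientGroup.mk (out t.1) : PG q) ≠ 1 := by
      rw [hout]
      intro h
      exact ht (Subtype.ext h)
    have hG : ∀ c : Ka q, Ma q (out t.1) ≠ c • (1 : Matrix (Fin 2) (Fin 2) (Ka q)) :=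
      fun c hc => hg1 (center_of q _ c hc)
    have hdet : (Ma q (out t.1)).det ≠ 0 := by
      intro h
      obtain ⟨v, hv, hv'⟩ := Matrix.exists_mulVec_eq_zero_iff.2 h
      rw [← Ph_smul] at hv'
      exact hv ((smul_eq_zero_iff_eq _).1 hv')
    have hpow : (QuotientGroup.mk (out t.1 ^ (n + 1)) : PG q) = 1 := by
      rw [QuotientGroup.mk_pow, hout]
      have h1 : t ^ (n + 1) = 1 := by
        rw [← Nat.succ_eq_add_one, ← hn]
        exact pow_card_eq_one'
      have h2 := congrArg Subtype.val h1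
      simpa using h2
    rw [QuotientGroup.eq_one_iff,
      Matrix.GeneralLinearGroup.mem_center_iff_val_mem_range_scalar] at hpow
    obtain ⟨c, hc⟩ := hpow
    have hGn := Ma_scalar q _ c hc
    rw [Ma_pow] at hGn
    have hnK : ((n + 1 : ℕ) : Ka q) ≠ 0 := by
      rw [← map_natCast (algebraMap (ZMod q) (Ka q)), Ne, map_eq_zero, ZMod.natCast_eq_zero_iff]
      rw [← Nat.succ_eq_add_one, ← hn]
      exact hT
    obtain ⟨v, w, hv0, hw0, hv, hw, hvw, hall⟩ := eigen (Ma q (out t.1)) hG hdet n _ hnK hGn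
    refine ⟨Projectivization.mk (Ka q) v hv0, Projectivization.mk (Ka q) w hw0, ?_, ?_⟩
    · intro h
      obtain ⟨a, ha⟩ := (Projectivization.mk_eq_mk_iff' _ _ _ _ _).1 h.symm
      exact hvw a ha
    · intro x
      induction x using Projectivization.ind with
      | h u hu =>
        constructor
        · intro h
          have h1 := (fix_iff q _ u hu).1 h
          rcases hall u hu h1 with ⟨a, ha⟩ | ⟨a, ha⟩
          · left
            exact (Projectivization.mk_eq_mk_iff' _ _ _ _ _).2 ⟨a, ha⟩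
          · right
            exact (Projectivization.mk_eq_mk_iff' _ _ _ _ _).2 ⟨a, ha⟩
        · rintro (h | h)
          · rw [h]
            exact (fix_iff q _ v hv0).2 hv
          · rw [h]
            exact (fix_iff q _ w hw0).2 hw
  let Ω : Type := {x : Li q // ∃ t : T, t ≠ 1 ∧ ac t x = x}
  have hΩ : Finite Ω := by
    have h1 : {x : Li q | ∃ t : T, t ≠ 1 ∧ ac t x = x} =
        ⋃ t ∈ {t : T | t ≠ 1}, {x : Li q | ac t x = x} := by
      ext x
      simp
    have h2 : {x : Li q | ∃ t : T, t ≠ 1 ∧ ac t x = x}.Finite := by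
      rw [h1]
      refine (Set.toFinite {t : T | t ≠ 1}).biUnion fun t ht => ?_
      obtain ⟨x1, x2, _, h3⟩ := hfix t ht
      refine (Set.toFinite {x1, x2}).subset fun x hx => ?_
      exact (h3 x).1 hx
    exact h2.to_subtype
  let mac : MulAction T Ω :=
    { smul := fun s x => ⟨ac s x.1, by
        obtain ⟨t, ht, htx⟩ := x.2
        refine ⟨s * t * s⁻¹, ?_, ?_⟩
        · intro h
          exact ht (conj_eq_one_iff.1 h)
        · rw [ac_mul, ac_inv, ac_mul, htx]⟩
      one_smul := fun x => Subtype.ext (ac_one x.1)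
      mul_smul := fun s t x => Subtype.ext (ac_mul s t x.1) }
  refine ⟨Ω, hΩ, mac, ?_, ?_⟩
  · intro t ht
    obtain ⟨x1, x2, h12, h3⟩ := hfix t ht
    rw [Nat.card_eq_two_iff]
    refine ⟨⟨⟨x1, t, ht, (h3 x1).2 (Or.inl rfl)⟩, Subtype.ext ((h3 x1).2 (Or.inl rfl))⟩,
      ⟨⟨x2, t, ht, (h3 x2).2 (Or.inr rfl)⟩, Subtype.ext ((h3 x2).2 (Or.inr rfl))⟩, ?_, ?_⟩
    · intro h
      exact h12 (congrArg (fun z => z.1.1) h)
    · ext z
      simp only [Set.mem_insert_iff, Set.mem_singleton_iff, Set.mem_univ, iff_true]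
      have h4 : ac t z.1.1 = z.1.1 := congrArg Subtype.val z.2
      rcases (h3 _).1 h4 with h5 | h5
      · left
        exact Subtype.ext (Subtype.ext h5)
      · right
        exact Subtype.ext (Subtype.ext h5)
  · intro x s t hs ht
    have hs' : ac s x.1 = x.1 := congrArg Subtype.val hs
    have ht' : ac t x.1 = x.1 := congrArg Subtype.val ht
    obtain ⟨v, hv0, hxv⟩ : ∃ (v : Fin 2 → Ka q) (hv : v ≠ 0),
        x.1 = Projectivization.mk (Ka q) v hv :=
      ⟨x.1.rep, x.1.rep_nonzero, x.1.mk_rep.symm⟩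
    rw [hxv] at hs' ht'
    obtain ⟨a, ha⟩ := (fix_iff q _ v hv0).1 hs'
    obtain ⟨b, hb⟩ := (fix_iff q _ v hv0).1 ht'
    have hne : ∀ (g : GL (Fin 2) (ZMod q)) (u : Fin 2 → Ka q), Ma q g *ᵥ u = 0 → u = 0 := by
      intro g u h
      rw [← Ph_smul] at h
      exact (smul_eq_zero_iff_eq _).1 h
    have ha0 : a ≠ 0 := by
      intro h
      rw [h, zero_smul] at ha
      exact hv0 (hne _ _ ha)
    have hb0 : b ≠ 0 := by
      intro h
      rw [h, zero_smul] at hb
      exact hv0 (hne _ _ hb)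
    obtain ⟨g0, hg0⟩ : ∃ g0, g0 = out s.1 * out t.1 * (out s.1)⁻¹ * (out t.1)⁻¹ := ⟨_, rfl⟩
    have hg : g0 * out t.1 * out s.1 = out s.1 * out t.1 := by
      rw [hg0]
      group
    have hMg := congrArg (Ma q) hg
    rw [Ma_mul, Ma_mul, Ma_mul] at hMg
    have hv1 : Ma q g0 *ᵥ v = v := by
      have h1 : (Ma q g0 * Ma q (out t.1) * Ma q (out s.1)) *ᵥ v =
          (Ma q (out s.1) * Ma q (out t.1)) *ᵥ v := by rw [hMg]
      rw [← Matrix.mulVec_mulVec, ← Matrix.mulVec_mulVec, ← Matrix.mulVec_mulVec, ha, hb,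
        Matrix.mulVec_smul, hb, Matrix.mulVec_smul, Matrix.mulVec_smul, Matrix.mulVec_smul,
        ha, smul_smul, smul_smul, mul_comm b a] at h1
      exact smul_right_injective _ (mul_ne_zero ha0 hb0) h1
    have hdne : ∀ g : GL (Fin 2) (ZMod q), (Ma q g).det ≠ 0 := by
      intro g h
      obtain ⟨u, hu, hu'⟩ := Matrix.exists_mulVec_eq_zero_iff.2 h
      exact hu (hne _ _ hu')
    have hdet : (Ma q g0).det = 1 := by
      have h1 := congrArg Matrix.det hMg
      rw [Matrix.det_mul, Matrix.det_mul, Matrix.det_mul] at h1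
      have h2 : ((Ma q g0).det - 1) * ((Ma q (out s.1)).det * (Ma q (out t.1)).det) = 0 := by
        linear_combination h1
      have h3 := (mul_eq_zero.1 h2).resolve_right (mul_ne_zero (hdne _) (hdne _))
      linear_combination h3
    have hdet1 : (Ma q g0 - 1).det = 0 := by
      refine Matrix.exists_mulVec_eq_zero_iff.1 ⟨v, hv0, ?_⟩
      rw [Matrix.sub_mulVec, Matrix.one_mulVec, hv1, sub_self]
    obtain ⟨q', hq'⟩ := Nat.exists_eq_succ_of_ne_zero hq.ne_zero
    have hqK : ((q' + 1 : ℕ) : Ka q) = 0 := by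
      have h1 : ((q : ℕ) : Ka q) = 0 := by
        rw [← map_natCast (algebraMap (ZMod q) (Ka q)), ZMod.natCast_self, map_zero]
      rw [← Nat.succ_eq_add_one, ← hq']
      exact h1
    have hun := unip (Ma q g0) hdet hdet1 q' hqK
    rw [← Nat.succ_eq_add_one, ← hq', ← Ma_pow] at hun
    have h1 := center_of q (g0 ^ q) 1 (by rw [hun, one_smul])
    rw [QuotientGroup.mk_pow] at h1
    have h2 : (QuotientGroup.mk g0 : PG q) = ((s * t * s⁻¹ * t⁻¹ : T) : PG q) := by
      rw [hg0]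
      simp only [QuotientGroup.mk_mul, QuotientGroup.mk_inv, hout]
      rfl
    rw [h2] at h1
    have h3 : (s * t * s⁻¹ * t⁻¹) ^ q = 1 := Subtype.ext h1
    have h4 : orderOf (s * t * s⁻¹ * t⁻¹) ∣ q := orderOf_dvd_of_pow_eq_one h3
    have h5 : orderOf (s * t * s⁻¹ * t⁻¹) ∣ Nat.card T := orderOf_dvd_natCard _
    have h6 : orderOf (s * t * s⁻¹ * t⁻¹) = 1 := by
      rcases (Nat.dvd_prime hq).1 h4 with h | h
      · exact h
      · rw [h] at h5
        exact absurd h5 hT
    have h7 := orderOf_eq_one_iff.1 h6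
    calc s * t = (s * t * s⁻¹ * t⁻¹) * (t * s) := by group
      _ = t * s := by rw [h7, one_mul]

end Pool.Agent.H74.FIB
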