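import Pool.Agent.H6.FIB.TargetsG

/-!
# Row SDP of the board fib_modules: an ambient group for an automorphism of a central extension
-/

set_option autoImplicit false

namespace Pool.Agent.H74.FIB

open FI

theorem pf_SDP (_h1 : T_SOL) (_h2 : T_ALS) : T_SDP := by
  classical
  intro A _ _ S hAl hprime M _ _ π hπ hcen σ a ha hσz hσ
  have hSn : S.Normal := hAl.nor
  let σ' : MulAut M := σ
  have hfin : Finite (MulAut M × A) := inferInstance
  let T : Subgroup (MulAut M × A) := Subgroup.zpowers (σ', a)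
  let φ : T →* MulAut M := (MonoidHom.fst (MulAut M) A).comp T.subtype
  let χ : T →* A := (MonoidHom.snd (MulAut M) A).comp T.subtype
  have hpow : ∀ x : T, ∃ k : ℕ, (σ', a) ^ k = x.1 := by
    intro x
    have h1 : x.1 ∈ Submonoid.powers (σ', a) := mem_powers_iff_mem_zpowers.2 x.2
    exact h1
  have hcomp : ∀ (k : ℕ) (m : M), π ((σ' ^ k) m) = a ^ k * π m * (a ^ k)⁻¹ := by
    intro k
    induction k with
    | zero => intro m; simp
    | succ k ih =>
      intro m
      rw [pow_succ', MulAut.mul_apply]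
      have h1 : π (σ' ((σ' ^ k) m)) = a * π ((σ' ^ k) m) * a⁻¹ := hσ _
      rw [h1, ih, pow_succ', mul_inv_rev]
      simp only [mul_assoc]
  have hcomp' : ∀ x : T, π.comp (φ x).toMonoidHom = (MulAut.conj (χ x)).toMonoidHom.comp π := by
    intro x
    obtain ⟨k, hk⟩ := hpow x
    have h1 : φ x = σ' ^ k := by
      change x.1.1 = _
      rw [← hk]
      rfl
    have h2 : χ x = a ^ k := by
      change x.1.2 = _
      rw [← hk]
      rfl
    ext m
    rw [h1, h2]
    exact hcomp k m
  let Γ : Type := M ⋊[φ] T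
  have hΓfin : Finite Γ := Finite.of_equiv _ SemidirectProduct.equivProd.symm
  let j : M →* Γ := SemidirectProduct.inl
  let t0 : T := ⟨(σ', a), Subgroup.mem_zpowers _⟩
  let t : Γ := SemidirectProduct.inr t0
  let δ : Γ →* A := SemidirectProduct.lift π χ hcomp'
  have hδj : ∀ m, δ (j m) = π m := fun m => SemidirectProduct.lift_inl π χ hcomp' m
  have hδt : δ t = a := SemidirectProduct.lift_inr π χ hcomp' t0
  have htj : ∀ m, t * j m * t⁻¹ = j (σ m) := by
    intro m
    have h1 := SemidirectProduct.inl_aut (φ := φ) t0 m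
    rw [map_inv] at h1
    exact h1.symm
  have hgen : ∀ g : Γ, ∃ (m : M) (k : ℕ), g = j m * t ^ k := by
    intro g
    obtain ⟨k, hk⟩ := hpow g.right
    refine ⟨g.left, k, ?_⟩
    have h1 : g.right = t0 ^ k := Subtype.ext hk.symm
    have h2 := SemidirectProduct.inl_left_mul_inr_right g
    rw [h1, map_pow] at h2
    exact h2.symm
  refine ⟨Γ, inferInstance, Fintype.ofFinite Γ, j, t, δ, SemidirectProduct.inl_injective, hδj,
    hδt, htj, ⟨?_, ?_, fun g => Iff.rfl, ?_, ?_, ?_⟩, hgen⟩
  · rintro _ ⟨z, hz, rfl⟩ g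
    obtain ⟨m, k, rfl⟩ := hgen g
    have h1 : Commute (j z) (j m) := by
      have h2 := (Subgroup.mem_center_iff.1 (hcen hz)) m
      change j z * j m = j m * j z
      rw [← map_mul, ← map_mul, h2]
    have h3 : Commute (j z) t := by
      have h4 := htj z
      rw [hσz z hz] at h4
      change j z * t = t * j z
      exact (eq_mul_of_mul_inv_eq h4).symm ▸ rfl
    exact h1.mul_right (h3.pow_right k)
  · change (SemidirectProduct.inl : M →* Γ).range.Normal
    have h1 : (SemidirectProduct.inl : M →* M ⋊[φ] T).range = SemidirectProduct.rightHom.ker :=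
      SemidirectProduct.range_inl_eq_ker_rightHom
    rw [h1]
    infer_instance
  · ext g
    constructor
    · rintro ⟨⟨m, rfl⟩, h⟩
      have h2 : δ (j m) = 1 := h
      rw [hδj] at h2
      exact ⟨m, h2, rfl⟩
    · rintro ⟨m, hm, rfl⟩
      refine ⟨⟨m, rfl⟩, ?_⟩
      have h2 : δ (j m) = 1 := by
        rw [hδj]
        exact hm
      exact h2
  · ext y
    constructor
    · rintro ⟨_, ⟨m, rfl⟩, rfl⟩
      rw [hδj, ← hπ]
      exact ⟨m, rfl⟩
    · intro hy
      rw [← hπ] at hy
      obtain ⟨m, rfl⟩ := hy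
      exact ⟨j m, ⟨m, rfl⟩, hδj m⟩
  · intro g
    have hcard : Nat.card (A ⧸ S) = S.index := rfl
    have : Fact (S.index.Prime) := ⟨hprime⟩
    have hne : (QuotientGroup.mk a : A ⧸ S) ≠ 1 := by
      intro h
      exact ha ((QuotientGroup.eq_one_iff a).1 h)
    obtain ⟨k, hk⟩ := mem_powers_of_prime_card hcard hne (g' := (QuotientGroup.mk g : A ⧸ S))
    have h1 : (QuotientGroup.mk (g * (a ^ k)⁻¹) : A ⧸ S) = 1 := by
      rw [QuotientGroup.mk_mul, QuotientGroup.mk_inv, QuotientGroup.mk_pow]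
      have h2 : (QuotientGroup.mk a : A ⧸ S) ^ k = QuotientGroup.mk g := hk
      rw [h2, mul_inv_cancel]
    have h2 := (QuotientGroup.eq_one_iff _).1 h1
    rw [← hπ] at h2
    obtain ⟨m, hm⟩ := h2
    refine ⟨j m * t ^ k, ?_⟩
    rw [map_mul, map_pow, hδj, hδt, hm, inv_mul_cancel_right]

end Pool.Agent.H74.FIB
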